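import Pool.Agent.helper51.HS.KerK

/-!
# Presentations of numerical semigroups and toric ideals

The least number of generators of the kernel congruence of `ℕ^G → ℕ` is the least number of
generators of the toric ideal, over any field.
-/

set_option autoImplicit false

namespace Pool.Agent.helper51.HS

open MvPolynomial
open Pool.Agent.H51c (wt wt_zero wt_add wt_single Gm Dv Adj Conn fS fac fac_spec Dv_of_fac exists_fac
  wt_mem Conn_symm Conn_trans Conn_refl Conn_of_Adj Conn_vertex)

universe u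

/-- The additive map `ℕ^G → ℕ`, `a ↦ ∑ a_g g`. -/
def phi (G : Finset ℕ) : (G → ℕ) →+ ℕ where
  toFun a := ∑ g : G, a g * (g : ℕ)
  map_zero' := by simp
  map_add' a b := by simp [add_mul, Finset.sum_add_distrib]

/-- `R` is a presentation: a set of generators of the congruence `ker φ` on `ℕ^G`. -/
def IsPres (G : Finset ℕ) (R : Set ((G → ℕ) × (G → ℕ))) : Prop :=
  addConGen (fun a b => (a, b) ∈ R) = AddCon.ker (phi G)

/-- `R` is a minimal presentation: no proper subset of `R` is a presentation. -/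
def IsMinPres (G : Finset ℕ) (R : Set ((G → ℕ) × (G → ℕ))) : Prop :=
  IsPres G R ∧ ∀ R' ⊂ R, ¬ IsPres G R'

/-- The toric ideal of the semigroup ring over `k`. -/
noncomputable def toric (k : Type u) [Field k] (G : Finset ℕ) : Ideal (MvPolynomial G k) :=
  RingHom.ker (MvPolynomial.aeval (R := k) fun g : G => (Polynomial.X : Polynomial k) ^ (g : ℕ))

variable {S : Finset ℕ}

theorem toric_eq (k : Type u) [Field k] (G : Finset ℕ) : toric k G = RingHom.ker (evK k (fS G)) := rfl

/-- functions and finitely supported functions -/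
noncomputable def ef (S : Finset ℕ) : (S →₀ ℕ) → (S → ℕ) := fun c => fun i => c i

noncomputable def fe (S : Finset ℕ) : (S → ℕ) → (S →₀ ℕ) := fun c => Finsupp.equivFunOnFinite.symm c

theorem ef_add (c d : S →₀ ℕ) : ef S (c + d) = ef S c + ef S d := by
  funext i; simp [ef]

theorem fe_add (c d : S → ℕ) : fe S (c + d) = fe S c + fe S d := by
  ext i; simp [fe]

theorem fe_ef (c : S →₀ ℕ) : fe S (ef S c) = c := by
  ext i; simp [fe, ef]

theorem ef_fe (c : S → ℕ) : ef S (fe S c) = c := by
  funext i; simp [fe, ef]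

theorem phi_ef (c : S →₀ ℕ) : phi S (ef S c) = wt (fS S) c := by
  show ∑ g : S, c g * (g : ℕ) = c.sum fun i n => n * (i : ℕ)
  rw [Finsupp.sum_fintype]
  intro i; simp

theorem phi_fe (c : S → ℕ) : wt (fS S) (fe S c) = phi S c := by
  rw [← phi_ef, ef_fe]

/-- the congruence version of the criterion -/
theorem con_share (c : AddCon (S → ℕ)) {s : ℕ} (hpos : 0 ∉ S)
    (IH : ∀ t < s, ∀ u v : S →₀ ℕ, wt (fS S) u = t → wt (fS S) v = t → c (ef S u) (ef S v))
    {a : ℕ} (ha : a ∈ S) (u v : S →₀ ℕ) (hu : wt (fS S) u = s) (hv : wt (fS S) v = s)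
    (hua : u ⟨a, ha⟩ ≠ 0) (hva : v ⟨a, ha⟩ ≠ 0) : c (ef S u) (ef S v) := by
  obtain ⟨u', hu', hs⟩ := Dv_of_fac ha u hu hua
  obtain ⟨v', hv', hs'⟩ := Dv_of_fac ha v hv hva
  have ha0 : a ≠ 0 := fun h => hpos (h ▸ ha)
  have h1 := IH (wt (fS S) u') (by omega) u' v' rfl (by omega)
  rw [hu', hv', ef_add, ef_add]
  exact c.add (c.refl _) h1

theorem con_conn (c : AddCon (S → ℕ)) {s : ℕ} (hpos : 0 ∉ S)
    (IH : ∀ t < s, ∀ u v : S →₀ ℕ, wt (fS S) u = t → wt (fS S) v = t → c (ef S u) (ef S v))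
    {a b : ℕ} (ha : a ∈ S) (hb : b ∈ S) (hab : Conn S s a b) :
    ∀ (u v : S →₀ ℕ), wt (fS S) u = s → wt (fS S) v = s →
    u ⟨a, ha⟩ ≠ 0 → v ⟨b, hb⟩ ≠ 0 → c (ef S u) (ef S v) := by
  induction hab with
  | refl =>
    intro u v hu hv hua hva
    exact con_share c hpos IH ha u v hu hv hua hva
  | tail hab' hbc ih =>
    rename_i b c'
    intro u v hu hv hua hvc
    obtain ⟨hb', hc', γ, hγ, hs⟩ := hbc
    obtain ⟨w, hw⟩ := exists_fac hγ
    have hw1 : wt (fS S) (Finsupp.single ⟨b, hb'⟩ 1 + (Finsupp.single ⟨c', hc'⟩ 1 + w)) = s := by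
      rw [wt_add, wt_add, wt_single, wt_single]
      have : wt (fS S) w = γ := hw
      rw [this, hs]
      simp only [fS]
      ring
    have h1 := ih hb' u _ hu hw1 hua (by
      rw [Finsupp.add_apply, Finsupp.single_eq_same]; omega)
    have h2 := con_share c hpos IH hc' _ v hw1 hv (by
      rw [Finsupp.add_apply, Finsupp.add_apply, Finsupp.single_eq_same]; omega) hvc
    exact c.trans h1 h2

theorem con_of_classes (c : AddCon (S → ℕ)) (hpos : 0 ∉ S)
    (h : ∀ s a b, a ∈ S → Dv S a s → b ∈ S → Dv S b s → ∃ a' b', Conn S s a a' ∧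
      Conn S s b b' ∧ c (ef S (fac S s a')) (ef S (fac S s b'))) :
    ∀ u v : S →₀ ℕ, wt (fS S) u = wt (fS S) v → c (ef S u) (ef S v) := by
  have key : ∀ s : ℕ, ∀ u v : S →₀ ℕ, wt (fS S) u = s → wt (fS S) v = s →
      c (ef S u) (ef S v) := by
    intro s
    induction s using Nat.strong_induction_on with
    | _ s IH =>
      intro u v hu hv
      by_cases hs : s = 0
      · have hz : ∀ w : S →₀ ℕ, wt (fS S) w = s → w = 0 := by
          intro w hw
          by_contra hne
          obtain ⟨i, hi⟩ := Finsupp.ne_iff.1 hne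
          obtain ⟨w', _, hw''⟩ := Dv_of_fac i.2 w hw hi
          have : (i : ℕ) ≠ 0 := fun h => hpos (h ▸ i.2)
          omega
        rw [hz u hu, hz v hv]
        exact c.refl _
      · have hne : ∀ w : S →₀ ℕ, wt (fS S) w = s → ∃ i : S, w i ≠ 0 := by
          intro w hw
          by_contra hcon
          push Not at hcon
          have : w = 0 := by ext i; exact hcon i
          rw [this, wt_zero] at hw
          exact hs hw.symm
        obtain ⟨i, hi⟩ := hne u hu
        obtain ⟨j, hj⟩ := hne v hv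
        obtain ⟨u', _, hu''⟩ := Dv_of_fac i.2 u hu hi
        obtain ⟨v', _, hv''⟩ := Dv_of_fac j.2 v hv hj
        have hDi : Dv S i s := ⟨_, wt_mem u', hu''⟩
        have hDj : Dv S j s := ⟨_, wt_mem v', hv''⟩
        obtain ⟨a', b', hca, hcb, hJ⟩ := h s i j i.2 hDi j.2 hDj
        have hva := Conn_vertex hca i.2 hDi
        have hvb := Conn_vertex hcb j.2 hDj
        have hfa := fac_spec hva.1 hva.2
        have hfb := fac_spec hvb.1 hvb.2
        have IH' : ∀ t < s, ∀ u v : S →₀ ℕ, wt (fS S) u = t → wt (fS S) v = t →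
            c (ef S u) (ef S v) := fun t ht u v hu hv => IH t ht u v hu hv
        have h1 := con_conn c hpos IH' i.2 hva.1 hca u _ hu hfa.1 hi hfa.2
        have h2 := con_conn c hpos IH' hvb.1 j.2 (Conn_symm hcb) _ v hfb.1 hv hfb.2 hj
        exact c.trans (c.trans h1 hJ) h2
  exact fun u v huv => key _ u v rfl huv.symm

/-- a presentation gives generators of the toric ideal -/
theorem spanRank_le_of_isPres (k : Type u) [Field k] {R : Finset ((S → ℕ) × (S → ℕ))}
    (hR : IsPres S (R : Set ((S → ℕ) × (S → ℕ)))) :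
    Submodule.spanRank (toric k S) ≤ (R.card : Cardinal) := by
  classical
  let B : (S → ℕ) × (S → ℕ) → MvPolynomial S k := fun q =>
    monomial (fe S q.1) (1 : k) - monomial (fe S q.2) 1
  have hker : ∀ q ∈ R, phi S q.1 = phi S q.2 := by
    intro q hq
    have h1 : addConGen (fun a b => (a, b) ∈ R) q.1 q.2 := AddConGen.Rel.of _ _ hq
    have h2 : addConGen (fun a b => (a, b) ∈ R) = AddCon.ker (phi S) := hR
    rw [h2] at h1
    exact h1
  let J : Ideal (MvPolynomial S k) := Ideal.span ((R.image B : Finset (MvPolynomial S k)) : Set _)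
  let C : AddCon (S → ℕ) :=
    { r := fun u v => monomial (fe S u) (1 : k) - monomial (fe S v) 1 ∈ J
      iseqv := ⟨fun u => by rw [sub_self]; exact J.zero_mem,
        fun {u v} h => by rw [← neg_sub]; exact J.neg_mem h,
        fun {u v w} h1 h2 => by
          have := J.add_mem h1 h2
          rwa [sub_add_sub_cancel] at this⟩
      add' := by
        intro u v u' v' h1 h2
        show monomial (fe S (u + u')) (1 : k) - monomial (fe S (v + v')) 1 ∈ J
        have h3 : monomial (fe S (u + u')) (1 : k) - monomial (fe S (v + v')) 1 =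
            monomial (fe S u') 1 * (monomial (fe S u) (1 : k) - monomial (fe S v) 1) +
            monomial (fe S v) 1 * (monomial (fe S u') (1 : k) - monomial (fe S v') 1) := by
          rw [fe_add, fe_add, mul_sub, mul_sub, monomial_mul, monomial_mul, monomial_mul,
            monomial_mul, one_mul, add_comm (fe S u') (fe S u), add_comm (fe S u') (fe S v)]
          ring
        rw [h3]
        exact J.add_mem (J.mul_mem_left _ h1) (J.mul_mem_left _ h2) }
  have hC : AddCon.ker (phi S) ≤ C := by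
    have h2 : addConGen (fun a b => (a, b) ∈ R) = AddCon.ker (phi S) := hR
    rw [← h2]
    apply AddCon.addConGen_le.2
    intro a b hab
    exact Ideal.subset_span (Finset.mem_coe.2 (Finset.mem_image.2 ⟨(a, b), hab, rfl⟩))
  rw [toric_eq]
  refine (spanRank_kerK_le k (fS S) (R.image B) ?_ ?_).trans ?_
  · intro x hx
    obtain ⟨q, hq, rfl⟩ := Finset.mem_image.1 hx
    apply binomial_mem_kerK
    rw [phi_fe, phi_fe, hker q hq]
  · apply kerK_le_of_binomial
    intro u v huv
    have h1 : AddCon.ker (phi S) (ef S u) (ef S v) := by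
      show phi S (ef S u) = phi S (ef S v)
      rw [phi_ef, phi_ef, huv]
    have h3 : C (ef S u) (ef S v) := hC h1
    have h4 : monomial (fe S (ef S u)) (1 : k) - monomial (fe S (ef S v)) 1 ∈ J := h3
    rwa [fe_ef, fe_ef] at h4
  · exact_mod_cast Finset.card_image_le

/-- the smallest vertex at `s` -/
noncomputable def bs (S : Finset ℕ) (s : ℕ) : ℕ := sInf {b | b ∈ S ∧ Dv S b s}

/-- the smallest vertex in the class of `a` -/
noncomputable def mc (S : Finset ℕ) (s a : ℕ) : ℕ := sInf {b | Conn S s a b}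

theorem mc_conn (s a : ℕ) : Conn S s a (mc S s a) :=
  Nat.sInf_mem (s := {b | Conn S s a b}) ⟨a, Conn_refl⟩

theorem mc_le {s a b : ℕ} (h : Conn S s a b) : mc S s a ≤ b := Nat.sInf_le h

theorem bs_spec {s a : ℕ} (ha : a ∈ S) (h : Dv S a s) : bs S s ∈ S ∧ Dv S (bs S s) s :=
  Nat.sInf_mem (s := {b | b ∈ S ∧ Dv S b s}) ⟨a, ha, h⟩

theorem bs_le {s a : ℕ} (ha : a ∈ S) (h : Dv S a s) : bs S s ≤ a := Nat.sInf_le ⟨ha, h⟩

/-- the index set: the classes different from the one of the smallest vertex -/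
def IX (S : Finset ℕ) : Set (ℕ × ℕ) :=
  {q | q.2 ∈ S ∧ Dv S q.2 q.1 ∧ (∀ b, Conn S q.1 q.2 b → q.2 ≤ b) ∧ bs S q.1 < q.2}

/-- the lower bound for the number of generators -/
theorem card_le_of_subset_IX (k : Type u) [Field k] (T : Finset (ℕ × ℕ)) (hT : (T : Set (ℕ × ℕ)) ⊆ IX S) :
    (T.card : Cardinal) ≤ Submodule.spanRank (toric k S) := by
  classical
  rw [toric_eq]
  let g : T → (S →₀ ℕ) → k := fun q c =>
    if wt (fS S) c = q.1.1 ∧ ∃ l : S, c l ≠ 0 ∧ Conn S q.1.1 l q.1.2 then 1 else 0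
  let h : T → S → ℕ → k := fun q l t => if t + l = q.1.1 ∧ Conn S q.1.1 l q.1.2 then 1 else 0
  let P : T → MvPolynomial S k := fun q =>
    monomial (fac S q.1.1 q.1.2) (1 : k) - monomial (fac S q.1.1 (bs S q.1.1)) 1
  have hIX : ∀ q : T, q.1 ∈ IX S := fun q => hT q.2
  have hfac : ∀ q : T, wt (fS S) (fac S q.1.1 q.1.2) = q.1.1 ∧
      ∃ ha : q.1.2 ∈ S, fac S q.1.1 q.1.2 ⟨q.1.2, ha⟩ ≠ 0 := fun q =>
    ⟨(fac_spec (hIX q).1 (hIX q).2.1).1, (hIX q).1, (fac_spec (hIX q).1 (hIX q).2.1).2⟩
  have hfacb : ∀ q : T, wt (fS S) (fac S q.1.1 (bs S q.1.1)) = q.1.1 ∧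
      ∃ ha : bs S q.1.1 ∈ S, fac S q.1.1 (bs S q.1.1) ⟨bs S q.1.1, ha⟩ ≠ 0 := fun q => by
    have hb := bs_spec (hIX q).1 (hIX q).2.1
    exact ⟨(fac_spec hb.1 hb.2).1, hb.1, (fac_spec hb.1 hb.2).2⟩
  -- all elements of the support of a factorization are in one class
  have hcl : ∀ (s : ℕ) (c : S →₀ ℕ), wt (fS S) c = s → ∀ l l' : S, c l ≠ 0 → c l' ≠ 0 →
      Conn S s l l' := by
    intro s c hc l l' hl hl'
    by_cases hll : l = l'
    · rw [hll]; exact Conn_refl
    · obtain ⟨c', hc', hs⟩ := Dv_of_fac l.2 c hc hl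
      have hl'' : c' ⟨l', l'.2⟩ ≠ 0 := by
        rw [hc', Finsupp.add_apply, Finsupp.single_apply, if_neg (by simpa using hll), zero_add] at hl'
        exact hl'
      obtain ⟨c'', hc'', hs'⟩ := Dv_of_fac l'.2 c' rfl hl''
      refine Conn_of_Adj ⟨l.2, l'.2, wt (fS S) c'', wt_mem c'', ?_⟩
      rw [hs, hs']; ring
  have hg : ∀ i l c, g i (c + Finsupp.single l 1) = h i l (wt (fS S) c) := by
    intro q l c
    show (if _ then (1 : k) else 0) = if _ then (1 : k) else 0
    have hw : wt (fS S) (c + Finsupp.single l 1) = wt (fS S) c + l := by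
      rw [wt_add, wt_single]; simp
    have hll : (c + Finsupp.single l 1 : S →₀ ℕ) l ≠ 0 := by
      rw [Finsupp.add_apply, Finsupp.single_eq_same]; omega
    have hiff : (wt (fS S) (c + Finsupp.single l 1) = q.1.1 ∧
        ∃ l' : S, (c + Finsupp.single l 1 : S →₀ ℕ) l' ≠ 0 ∧ Conn S q.1.1 l' q.1.2) ↔
        (wt (fS S) c + l = q.1.1 ∧ Conn S q.1.1 l q.1.2) := by
      constructor
      · rintro ⟨h1, l', h2, h3⟩
        exact ⟨by rw [← hw]; exact h1, Conn_trans (hcl _ _ h1 l l' hll h2) h3⟩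
      · rintro ⟨h1, h2⟩
        exact ⟨by rw [hw]; exact h1, l, hll, h2⟩
    by_cases hc : wt (fS S) c + l = q.1.1 ∧ Conn S q.1.1 l q.1.2
    · rw [if_pos hc, if_pos (hiff.2 hc)]
    · rw [if_neg hc, if_neg (fun h' => hc (hiff.1 h'))]
  have hP : ∀ i, P i ∈ RingHom.ker (evK k (fS S)) := fun q =>
    binomial_mem_kerK k (fS S) _ _ ((hfac q).1.trans (hfacb q).1.symm)
  have hmat : ∀ i j : T, LfK k (g j) (P i) = if i = j then 1 else 0 := by
    intro i j
    show LfK k (g j) (monomial (fac S i.1.1 i.1.2) (1 : k) - monomial (fac S i.1.1 (bs S i.1.1)) 1) = _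
    rw [map_sub, LfK_monomial, LfK_monomial, one_mul, one_mul]
    have hb0 : g j (fac S i.1.1 (bs S i.1.1)) = 0 := by
      show (if _ then (1 : k) else 0) = 0
      rw [if_neg]
      rintro ⟨h1, l, h2, h3⟩
      obtain ⟨hw, hbS, hb⟩ := hfacb i
      rw [hw] at h1
      rw [← h1] at h3
      have h4 : Conn S i.1.1 (bs S i.1.1) j.1.2 := Conn_trans (hcl _ _ hw ⟨_, hbS⟩ l hb h2) h3
      have h5 := (hIX j).2.2.1 (bs S i.1.1) (by rw [← h1]; exact Conn_symm h4)
      have h6 := (hIX j).2.2.2
      rw [← h1] at h6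
      omega
    rw [hb0, sub_zero]
    show (if _ then (1 : k) else 0) = _
    by_cases hij : i = j
    · subst hij
      obtain ⟨hw, hS, ha⟩ := hfac i
      rw [if_pos rfl, if_pos ⟨hw, ⟨_, hS⟩, ha, Conn_refl⟩]
    · rw [if_neg hij, if_neg]
      rintro ⟨h1, l, h2, h3⟩
      obtain ⟨hw, hS, ha⟩ := hfac i
      rw [hw] at h1
      rw [← h1] at h3
      have h4 : Conn S i.1.1 i.1.2 j.1.2 := Conn_trans (hcl _ _ hw ⟨_, hS⟩ l ha h2) h3
      have h5 := (hIX i).2.2.1 _ h4
      have h6 := (hIX j).2.2.1 i.1.2 (by rw [← h1]; exact Conn_symm h4)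
      exact hij (Subtype.ext (Prod.ext h1 (le_antisymm h5 h6)))
  have hind : LinearIndependent k (fun i => (fun j => LfK k (g j) (P i) : T → k)) := by
    have h1 : (fun i => (fun j => LfK k (g j) (P i) : T → k)) = fun i : T => Pi.single i (1 : k) := by
      funext i j
      rw [hmat i j, Pi.single_apply]
      by_cases hij : i = j
      · rw [if_pos hij, if_pos hij.symm]
      · rw [if_neg hij, if_neg (fun h' => hij h'.symm)]
    rw [h1]
    have := (Pi.basisFun k T).linearIndependent
    have h2 : (fun i : T => Pi.single i (1 : k)) = ⇑(Pi.basisFun k T) := by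
      funext i; rw [Pi.basisFun_apply]
    rw [h2]; exact this
  have := card_le_spanRankK k (fS S) g h hg P hP hind
  rwa [Fintype.card_coe] at this

/-- a presentation with as few elements as the toric ideal has generators -/
theorem exists_isPres (k : Type u) [Field k] (hpos : 0 ∉ S) (n : ℕ)
    (hn : Submodule.spanRank (toric k S) ≤ (n : Cardinal)) :
    ∃ R : Finset ((S → ℕ) × (S → ℕ)), IsPres S (R : Set ((S → ℕ) × (S → ℕ))) ∧ R.card ≤ n := by
  classical
  have hcard : ∀ T : Finset (ℕ × ℕ), (T : Set (ℕ × ℕ)) ⊆ IX S → T.card ≤ n := by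
    intro T hT
    have := (card_le_of_subset_IX k T hT).trans hn
    exact_mod_cast this
  have hfin : (IX S).Finite := by
    by_contra hinf
    obtain ⟨T, hT, hTc⟩ := (show (IX S).Infinite from hinf).exists_subset_card_eq (n + 1)
    have := hcard T hT
    omega
  let F : Finset (ℕ × ℕ) := hfin.toFinset
  have hF : ∀ q, q ∈ F ↔ q ∈ IX S := fun q => hfin.mem_toFinset
  let e : ℕ × ℕ → (S → ℕ) × (S → ℕ) := fun q =>
    (ef S (fac S q.1 q.2), ef S (fac S q.1 (bs S q.1)))
  refine ⟨F.image e, ?_, Finset.card_image_le.trans (hcard F (fun q hq => (hF q).1 hq))⟩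
  show addConGen (fun a b => (a, b) ∈ F.image e) = AddCon.ker (phi S)
  set C := addConGen (fun a b => (a, b) ∈ F.image e) with hC
  apply le_antisymm
  · apply AddCon.addConGen_le.2
    intro a b hab
    obtain ⟨q, hq, hqe⟩ := Finset.mem_image.1 hab
    have hq' := (hF q).1 hq
    have hb := bs_spec hq'.1 hq'.2.1
    have ha : a = ef S (fac S q.1 q.2) := (congrArg Prod.fst hqe).symm
    have hb' : b = ef S (fac S q.1 (bs S q.1)) := (congrArg Prod.snd hqe).symm
    show phi S a = phi S b
    rw [ha, hb', phi_ef, phi_ef, (fac_spec hq'.1 hq'.2.1).1, (fac_spec hb.1 hb.2).1]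
  · intro x y hxy
    have hxy' : phi S x = phi S y := hxy
    have key := con_of_classes C hpos ?_ (fe S x) (fe S y) (by rw [phi_fe, phi_fe, hxy'])
    · rwa [ef_fe, ef_fe] at key
    · intro s a b ha hda hb hdb
      have hbase : ∀ a, a ∈ S → Dv S a s → C (ef S (fac S s (mc S s a))) (ef S (fac S s (bs S s))) := by
        intro a ha hda
        have hv := Conn_vertex (mc_conn s a) ha hda
        by_cases h1 : mc S s a = bs S s
        · rw [h1]; exact C.refl _
        · have h2 := bs_le hv.1 hv.2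
          have hmem : ((s, mc S s a) : ℕ × ℕ) ∈ IX S := by
            refine ⟨hv.1, hv.2, ?_, lt_of_le_of_ne h2 (Ne.symm h1)⟩
            intro b hb
            exact mc_le (Conn_trans (mc_conn s a) hb)
          exact AddConGen.Rel.of _ _ (Finset.mem_image.2 ⟨(s, mc S s a), (hF _).2 hmem, rfl⟩)
      exact ⟨mc S s a, mc S s b, mc_conn s a, mc_conn s b,
        C.trans (hbase a ha hda) (C.symm (hbase b hb hdb))⟩

/-- the binomial of a pair -/
noncomputable def bin (k : Type u) [Field k] (q : (S → ℕ) × (S → ℕ)) : MvPolynomial S k :=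
  monomial (fe S q.1) (1 : k) - monomial (fe S q.2) 1

/-- each finite subset of a minimal presentation has at most `spanRank` elements -/
theorem card_le_of_minPres (k : Type u) [Field k] (hpos : 0 ∉ S) {R : Set ((S → ℕ) × (S → ℕ))}
    (hR : IsMinPres S R) (T : Finset ((S → ℕ) × (S → ℕ))) (hT : (T : Set _) ⊆ R) :
    (T.card : Cardinal) ≤ Submodule.spanRank (toric k S) := by
  classical
  obtain ⟨hR1, hR2⟩ := hR
  have hR1' : addConGen (fun a b => (a, b) ∈ R) = AddCon.ker (phi S) := hR1
  have hker : ∀ q ∈ R, phi S q.1 = phi S q.2 := by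
    intro q hq
    have h1 : addConGen (fun a b => (a, b) ∈ R) q.1 q.2 := AddConGen.Rel.of _ _ hq
    rw [hR1'] at h1
    exact h1
  -- the congruence generated by the other pairs
  let C : (S → ℕ) × (S → ℕ) → AddCon (S → ℕ) := fun e => addConGen (fun a b => (a, b) ∈ R \ {e})
  have hCle : ∀ e, C e ≤ AddCon.ker (phi S) := by
    intro e
    apply AddCon.addConGen_le.2
    intro a b hab
    exact hker (a, b) hab.1
  have hCR : ∀ e, ∀ q ∈ R, q ≠ e → C e q.1 q.2 := fun e q hq hqe => AddConGen.Rel.of _ _ ⟨hq, hqe⟩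
  have hnot : ∀ e ∈ R, ¬ C e e.1 e.2 := by
    intro e he hCe
    refine hR2 (R \ {e}) ?_ ?_
    · refine ⟨Set.sdiff_subset, fun h => ?_⟩
      exact (h he).2 rfl
    · show addConGen (fun a b => (a, b) ∈ R \ {e}) = AddCon.ker (phi S)
      apply le_antisymm (hCle e)
      rw [← hR1']
      apply AddCon.addConGen_le.2
      intro a b hab
      by_cases h : ((a, b) : (S → ℕ) × (S → ℕ)) = e
      · rw [← h] at hCe; rw [← h]; exact hCe
      · exact hCR e _ hab h
  -- below the degree of `e` nothing is lost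
  have hlow : ∀ e ∈ R, ∀ x y : S → ℕ, phi S x = phi S y → phi S x < phi S e.1 → C e x y := by
    intro e he x y hxy hlt
    let D : AddCon (S → ℕ) :=
      { r := fun u v => phi S u = phi S v ∧ (phi S u < phi S e.1 → C e u v)
        iseqv := ⟨fun u => ⟨rfl, fun _ => (C e).refl _⟩,
          fun {u v} h => ⟨h.1.symm, fun h' => (C e).symm (h.2 (by rw [h.1]; exact h'))⟩,
          fun {u v w} h1 h2 => ⟨h1.1.trans h2.1, fun h' =>
            (C e).trans (h1.2 h') (h2.2 (by rw [← h1.1]; exact h'))⟩⟩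
        add' := by
          intro u v u' v' h1 h2
          refine ⟨by rw [map_add, map_add, h1.1, h2.1], fun h' => ?_⟩
          rw [map_add] at h'
          exact (C e).add (h1.2 (by omega)) (h2.2 (by omega)) }
    have hD : AddCon.ker (phi S) ≤ D := by
      rw [← hR1']
      apply AddCon.addConGen_le.2
      intro a b hab
      refine ⟨hker (a, b) hab, fun h' => hCR e (a, b) hab ?_⟩
      rintro rfl
      exact lt_irrefl _ h'
    have h3 : D x y := hD (show AddCon.ker (phi S) x y from hxy)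
    exact h3.2 hlt
  let g : T → (S →₀ ℕ) → k := fun q c =>
    if wt (fS S) c = phi S q.1.1 ∧ C q.1 (ef S c) q.1.1 then 1 else 0
  let h : T → S → ℕ → k := fun q l t =>
    if ∃ c : S →₀ ℕ, wt (fS S) c = t ∧ t + l = phi S q.1.1 ∧
      C q.1 (ef S (c + Finsupp.single l 1)) q.1.1 then 1 else 0
  have hg : ∀ i l c, g i (c + Finsupp.single l 1) = h i l (wt (fS S) c) := by
    intro q l c
    show (if _ then (1 : k) else 0) = if _ then (1 : k) else 0
    have hw : wt (fS S) (c + Finsupp.single l 1) = wt (fS S) c + l := by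
      rw [wt_add, wt_single]; simp
    have hl0 : (l : ℕ) ≠ 0 := fun h' => hpos (h' ▸ l.2)
    have hiff : (wt (fS S) (c + Finsupp.single l 1) = phi S q.1.1 ∧
        C q.1 (ef S (c + Finsupp.single l 1)) q.1.1) ↔
        (∃ c' : S →₀ ℕ, wt (fS S) c' = wt (fS S) c ∧ wt (fS S) c + l = phi S q.1.1 ∧
          C q.1 (ef S (c' + Finsupp.single l 1)) q.1.1) := by
      constructor
      · rintro ⟨h1, h2⟩
        exact ⟨c, rfl, by rw [← hw]; exact h1, h2⟩
      · rintro ⟨c', h1, h2, h3⟩
        refine ⟨by rw [hw]; exact h2, ?_⟩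
        refine (C q.1).trans ?_ h3
        rw [ef_add, ef_add]
        refine (C q.1).add (hlow q.1 (hT q.2) _ _ ?_ ?_) ((C q.1).refl _)
        · rw [phi_ef, phi_ef, h1]
        · rw [phi_ef]; omega
    by_cases hc : wt (fS S) (c + Finsupp.single l 1) = phi S q.1.1 ∧
        C q.1 (ef S (c + Finsupp.single l 1)) q.1.1
    · rw [if_pos hc, if_pos (hiff.1 hc)]
    · rw [if_neg hc, if_neg (fun h' => hc (hiff.2 h'))]
  let P : T → MvPolynomial S k := fun q => bin k q.1
  have hP : ∀ i, P i ∈ RingHom.ker (evK k (fS S)) := fun q =>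
    binomial_mem_kerK k (fS S) _ _ (by rw [phi_fe, phi_fe]; exact hker q.1 (hT q.2))
  have hmat : ∀ i j : T, LfK k (g j) (P i) = if i = j then 1 else 0 := by
    intro i j
    show LfK k (g j) (monomial (fe S i.1.1) (1 : k) - monomial (fe S i.1.2) 1) = _
    rw [map_sub, LfK_monomial, LfK_monomial, one_mul, one_mul]
    show (if wt (fS S) (fe S i.1.1) = phi S j.1.1 ∧ C j.1 (ef S (fe S i.1.1)) j.1.1 then (1 : k) else 0) -
      (if wt (fS S) (fe S i.1.2) = phi S j.1.1 ∧ C j.1 (ef S (fe S i.1.2)) j.1.1 then (1 : k) else 0) = _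
    rw [phi_fe, phi_fe, ef_fe, ef_fe]
    by_cases hij : i = j
    · subst hij
      rw [if_pos rfl, if_pos ⟨rfl, (C i.1).refl _⟩, if_neg, sub_zero]
      rintro ⟨-, h2⟩
      exact hnot i.1 (hT i.2) ((C i.1).symm h2)
    · have hne : i.1 ≠ j.1 := fun h' => hij (Subtype.ext h')
      have h1 : C j.1 i.1.1 i.1.2 := hCR j.1 i.1 (hT i.2) hne
      have h2 : phi S i.1.1 = phi S i.1.2 := hker i.1 (hT i.2)
      rw [if_neg hij, ← h2]
      by_cases h3 : phi S i.1.1 = phi S j.1.1 ∧ C j.1 i.1.1 j.1.1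
      · rw [if_pos h3, if_pos ⟨h3.1, (C j.1).trans ((C j.1).symm h1) h3.2⟩, sub_self]
      · rw [if_neg h3, if_neg, sub_self]
        rintro ⟨h4, h5⟩
        exact h3 ⟨h4, (C j.1).trans h1 h5⟩
  have hind : LinearIndependent k (fun i => (fun j => LfK k (g j) (P i) : T → k)) := by
    have h1 : (fun i => (fun j => LfK k (g j) (P i) : T → k)) = fun i : T => Pi.single i (1 : k) := by
      funext i j
      rw [hmat i j, Pi.single_apply]
      by_cases hij : i = j
      · rw [if_pos hij, if_pos hij.symm]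
      · rw [if_neg hij, if_neg (fun h' => hij h'.symm)]
    rw [h1]
    have := (Pi.basisFun k T).linearIndependent
    have h2 : (fun i : T => Pi.single i (1 : k)) = ⇑(Pi.basisFun k T) := by
      funext i; rw [Pi.basisFun_apply]
    rw [h2]; exact this
  have := card_le_spanRankK k (fS S) g h hg P hP hind
  rw [Fintype.card_coe] at this
  exact this

/-- **The number of elements of a minimal presentation is the number of generators of the toric
ideal**, over any field. -/
theorem minPres_card (k : Type u) [Field k] (hpos : 0 ∉ S) {R : Set ((S → ℕ) × (S → ℕ))}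
    (hR : IsMinPres S R) : R.Finite ∧ Submodule.spanRank (toric k S) = ((R.ncard : ℕ) : Cardinal) := by
  classical
  have hfg : Submodule.spanRank (toric k S) < Cardinal.aleph0 := by
    rw [Submodule.spanRank_finite_iff_fg]
    exact IsNoetherian.noetherian _
  obtain ⟨n, hn⟩ := Cardinal.lt_aleph0.1 hfg
  have hfin : R.Finite := by
    by_contra hinf
    obtain ⟨T, hT, hTc⟩ := (show R.Infinite from hinf).exists_subset_card_eq (n + 1)
    have h1 := card_le_of_minPres k hpos hR T hT
    rw [hn, hTc] at h1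
    have h2 : n + 1 ≤ n := by exact_mod_cast h1
    omega
  refine ⟨hfin, ?_⟩
  have hc : R.ncard = hfin.toFinset.card := Set.ncard_eq_toFinset_card R hfin
  apply le_antisymm
  · have h1 : IsPres S ((hfin.toFinset : Finset _) : Set ((S → ℕ) × (S → ℕ))) := by
      rw [hfin.coe_toFinset]; exact hR.1
    have := spanRank_le_of_isPres k h1
    rwa [hc]
  · have := card_le_of_minPres k hpos hR hfin.toFinset (by rw [hfin.coe_toFinset])
    rwa [hc]

/-- minimal presentations exist -/
theorem exists_minPres (hpos : 0 ∉ S) : ∃ R, IsMinPres S R := by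
  classical
  have hfg : Submodule.spanRank (toric ℚ S) < Cardinal.aleph0 := by
    rw [Submodule.spanRank_finite_iff_fg]
    exact IsNoetherian.noetherian _
  obtain ⟨n, hn⟩ := Cardinal.lt_aleph0.1 hfg
  obtain ⟨R, hR, hRc⟩ := exists_isPres ℚ hpos n hn.le
  refine ⟨(R : Set _), hR, ?_⟩
  intro R' hR' hP
  have hfin : R'.Finite := R.finite_toSet.subset hR'.1
  have h1 : IsPres S ((hfin.toFinset : Finset _) : Set ((S → ℕ) × (S → ℕ))) := by
    rw [hfin.coe_toFinset]; exact hP
  have h2 := spanRank_le_of_isPres ℚ h1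
  rw [hn] at h2
  have h3 : n ≤ hfin.toFinset.card := by exact_mod_cast h2
  have h4 : hfin.toFinset ⊂ R := by
    rw [← Finset.coe_ssubset, hfin.coe_toFinset]; exact hR'
  have h5 := Finset.card_lt_card h4
  omega

end Pool.Agent.helper51.HS
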