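import Pool.Agent.helper51.HS.Cls

/-!
# Minimal generating sets, and the inequality in terms of the interval completion
-/

set_option autoImplicit false

namespace Pool.Agent.helper51.HS

open Pool.Agent.H51c (fS ev)

/-- `G` is a minimal generating set of the submonoid `Γ`. -/
def IsMinGens (G : Finset ℕ) (Γ : AddSubmonoid ℕ) : Prop :=
  AddSubmonoid.closure (G : Set ℕ) = Γ ∧ ∀ g ∈ G, g ∉ AddSubmonoid.closure ((G : Set ℕ) \ {g})

theorem dec_mem {P : Set ℕ} {x : ℕ} (hx : x ∈ AddSubmonoid.closure P) (h0 : x ≠ 0) :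
    ∃ p ∈ P, p ≠ 0 ∧ ∃ y ∈ AddSubmonoid.closure P, x = p + y := by
  induction hx using AddSubmonoid.closure_induction with
  | mem x hx => exact ⟨x, hx, h0, 0, AddSubmonoid.zero_mem _, rfl⟩
  | zero => exact absurd rfl h0
  | add a b ha hb iha ihb =>
    by_cases ha0 : a = 0
    · subst ha0
      rw [zero_add] at h0 ⊢
      exact ihb h0
    · obtain ⟨p, hp, hp0, y, hy, rfl⟩ := iha ha0
      exact ⟨p, hp, hp0, y + b, AddSubmonoid.add_mem _ hy hb, by ring⟩

theorem mem_of_lt {P : Set ℕ} {n : ℕ} : ∀ x, x ∈ AddSubmonoid.closure P → x < n →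
    x ∈ AddSubmonoid.closure (P \ {n}) := by
  intro x
  induction x using Nat.strong_induction_on with
  | _ x IH =>
    intro hx hn
    by_cases h0 : x = 0
    · rw [h0]; exact AddSubmonoid.zero_mem _
    · obtain ⟨p, hp, hp0, y, hy, rfl⟩ := dec_mem hx h0
      refine AddSubmonoid.add_mem _ (AddSubmonoid.subset_closure ⟨hp, ?_⟩)
        (IH y (by omega) hy (by omega))
      rw [Set.mem_singleton_iff]
      omega

/-- essential generators are the irreducible elements -/
theorem ess_iff (P : Set ℕ) (n : ℕ) : (n ∈ P ∧ n ∉ AddSubmonoid.closure (P \ {n})) ↔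
    (n ≠ 0 ∧ n ∈ AddSubmonoid.closure P ∧ ∀ a ∈ AddSubmonoid.closure P,
      ∀ b ∈ AddSubmonoid.closure P, a + b = n → a = 0 ∨ b = 0) := by
  constructor
  · rintro ⟨hn, hcl⟩
    refine ⟨?_, AddSubmonoid.subset_closure hn, ?_⟩
    · rintro rfl
      exact hcl (AddSubmonoid.zero_mem _)
    · intro a ha b hb hab
      by_contra hcon
      push Not at hcon
      apply hcl
      rw [← hab]
      have h1 := mem_of_lt (n := n) a ha (by omega)
      have h2 := mem_of_lt (n := n) b hb (by omega)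
      rw [hab]
      rw [← hab] at h1 h2 ⊢
      exact AddSubmonoid.add_mem _ h1 h2
  · rintro ⟨h0, hn, hirr⟩
    obtain ⟨p, hp, hp0, y, hy, hpy⟩ := dec_mem hn h0
    have hy0 : y = 0 := by
      rcases hirr p (AddSubmonoid.subset_closure hp) y hy hpy.symm with h | h
      · exact absurd h hp0
      · exact h
    have hnp : n = p := by rw [hpy, hy0, add_zero]
    refine ⟨hnp ▸ hp, ?_⟩
    intro hcl
    obtain ⟨q, hq, hq0, z, hz, hqz⟩ := dec_mem hcl h0
    have hz' : z ∈ AddSubmonoid.closure P := AddSubmonoid.closure_mono Set.sdiff_subset hz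
    rcases hirr q (AddSubmonoid.subset_closure hq.1) z hz' hqz.symm with h | h
    · exact hq0 h
    · apply hq.2
      rw [Set.mem_singleton_iff, hqz, h, add_zero]

theorem mem_iff_of_closure_eq {G : Finset ℕ} {P : Set ℕ}
    (hG : IsMinGens G (AddSubmonoid.closure P)) (n : ℕ) :
    n ∈ G ↔ n ∈ P ∧ n ∉ AddSubmonoid.closure (P \ {n}) := by
  rw [ess_iff P n, ← hG.1, ← ess_iff (G : Set ℕ) n]
  constructor
  · intro h
    exact ⟨Finset.mem_coe.2 h, hG.2 n h⟩
  · intro h
    exact Finset.mem_coe.1 h.1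

theorem zero_notMem {G : Finset ℕ} {Γ : AddSubmonoid ℕ} (hG : IsMinGens G Γ) : 0 ∉ G :=
  fun h => hG.2 0 h (AddSubmonoid.zero_mem _)

theorem gcd_eq_one {G : Finset ℕ} {Γ : AddSubmonoid ℕ} (hG : IsMinGens G Γ)
    (hΓ : ((Γ : Set ℕ)ᶜ).Finite) : G.gcd id = 1 := by
  have hdvd : ∀ x ∈ Γ, G.gcd id ∣ x := by
    intro x hx
    rw [← hG.1] at hx
    induction hx using AddSubmonoid.closure_induction with
    | mem x hx => exact Finset.gcd_dvd (f := id) hx
    | zero => exact dvd_zero _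
    | add a b _ _ iha ihb => exact dvd_add iha ihb
  obtain ⟨N, hN⟩ := hΓ.bddAbove
  have h1 : N + 1 ∈ Γ := by
    by_contra h
    have := hN (show N + 1 ∈ ((Γ : Set ℕ)ᶜ) from h)
    omega
  have h2 : N + 2 ∈ Γ := by
    by_contra h
    have := hN (show N + 2 ∈ ((Γ : Set ℕ)ᶜ) from h)
    omega
  have h3 := (Nat.dvd_add_right (hdvd _ h1)).1 (show G.gcd id ∣ (N + 1) + 1 from hdvd _ h2)
  exact Nat.dvd_one.1 h3

/-- the inequality over the rational numbers -/
theorem spanRank_le {Γ : AddSubmonoid ℕ} (hΓ : ((Γ : Set ℕ)ᶜ).Finite) {G Gt : Finset ℕ} {m M : ℕ}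
    (hG : IsMinGens G Γ) (hm : IsLeast (G : Set ℕ) m) (hM : IsGreatest (G : Set ℕ) M)
    (hGt : IsMinGens Gt (AddSubmonoid.closure (Set.Icc m M))) :
    Submodule.spanRank (toric ℚ G) ≤ Submodule.spanRank (toric ℚ Gt) := by
  classical
  have hne : G.Nonempty := ⟨m, hm.1⟩
  have hm' : G.min' hne = m := (G.isLeast_min' hne).unique hm
  have hM' : G.max' hne = M := (G.isGreatest_max' hne).unique hM
  have h1 := Pool.Agent.H51c.main G hne (zero_notMem hG) (gcd_eq_one hG hΓ) (fun a ha => by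
    rw [Finset.coe_erase]; exact hG.2 a ha)
  rw [hm', hM'] at h1
  have hmem : ∀ n : ℕ, n ∈ Gt ↔ (m ≤ n ∧ n ≤ M ∧
      n ∉ AddSubmonoid.closure (((Finset.Icc m M : Finset ℕ) : Set ℕ) \ ({n} : Set ℕ))) := by
    intro n
    rw [mem_iff_of_closure_eq hGt n, Set.mem_Icc, Finset.coe_Icc, and_assoc]
  refine h1.trans ?_
  exact Pool.Agent.H51c.spanRank_congr
    (σ := {n : ℕ // m ≤ n ∧ n ≤ M ∧
      n ∉ AddSubmonoid.closure (((Finset.Icc m M : Finset ℕ) : Set ℕ) \ ({n} : Set ℕ))})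
    (τ := Gt) (Equiv.subtypeEquivRight fun n => (hmem n).symm) _ _ (fun x => rfl)

end Pool.Agent.helper51.HS
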