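import Pool.Agent.H51c.Main

/-!
Generalities on the kernel of `x_i ↦ t ^ (f i)` over a field `k` (as `Pool.Agent.H51c.Ker`, there for the rational numbers).
-/

set_option autoImplicit false

namespace Pool.Agent.helper51.HS

open MvPolynomial
open Pool.Agent.H51c (wt wt_zero wt_add wt_single)

universe u

section Ker

variable {σ : Type} (k : Type u) [Field k]

/-- the evaluation map -/
noncomputable def evK (f : σ → ℕ) : MvPolynomial σ k →ₐ[k] Polynomial k :=
  MvPolynomial.aeval (R := k) (fun i => (Polynomial.X : Polynomial k) ^ (f i))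

theorem evK_monomial (f : σ → ℕ) (c : σ →₀ ℕ) (r : k) :
    evK k f (monomial c r) = Polynomial.monomial (wt f c) r := by
  rw [evK, aeval_monomial, wt, ← Polynomial.C_mul_X_pow_eq_monomial, Finsupp.sum]
  rw [← Finset.prod_pow_eq_pow_sum, Finsupp.prod]
  congr 1
  apply Finset.prod_congr rfl
  intro i _
  rw [← pow_mul, mul_comm]

/-- linear functional attached to a function of exponents -/
noncomputable def LfK (g : (σ →₀ ℕ) → k) : MvPolynomial σ k →ₗ[k] k :=
  (basisMonomials σ k).constr k g

theorem LfK_monomial (g : (σ →₀ ℕ) → k) (c : σ →₀ ℕ) (r : k) :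
    LfK k g (monomial c r) = r * g c := by
  have h1 : monomial c r = r • (basisMonomials σ k) c := by
    rw [coe_basisMonomials, smul_monomial, smul_eq_mul, mul_one]
  rw [h1, map_smul, LfK, Module.Basis.constr_basis, smul_eq_mul]

theorem LfK_wt_eq_zero (f : σ → ℕ) (h : ℕ → k) (p : MvPolynomial σ k)
    (hp : p ∈ RingHom.ker (evK k f)) : LfK k (fun c => h (wt f c)) p = 0 := by
  let ψ : Polynomial k →ₗ[k] k := Polynomial.lsum fun s => LinearMap.toSpanSingleton k k (h s)
  have key : ∀ q : MvPolynomial σ k, LfK k (fun c => h (wt f c)) q = ψ (evK k f q) := by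
    intro q
    induction q using MvPolynomial.induction_on' with
    | monomial u a =>
      rw [LfK_monomial, evK_monomial]
      simp only [ψ, Polynomial.lsum_apply]
      rw [Polynomial.sum_monomial_index _ _ (by simp)]
      simp [LinearMap.toSpanSingleton_apply]
    | add p q hp hq => rw [map_add, hp, hq, map_add, map_add]
  rw [key, (RingHom.mem_ker).1 hp, map_zero]

theorem kerK_le_of_binomial (f : σ → ℕ) (J : Ideal (MvPolynomial σ k))
    (h : ∀ u v : σ →₀ ℕ, wt f u = wt f v → monomial u (1 : k) - monomial v 1 ∈ J) :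
    RingHom.ker (evK k f) ≤ J := by
  classical
  let rep : ℕ → (MvPolynomial σ k ⧸ J) := fun s =>
    if hs : ∃ c : σ →₀ ℕ, wt f c = s then Ideal.Quotient.mk J (monomial hs.choose 1) else 0
  let ψ : Polynomial k →ₗ[k] (MvPolynomial σ k ⧸ J) :=
    Polynomial.lsum fun s => LinearMap.toSpanSingleton k _ (rep s)
  have key : ∀ q : MvPolynomial σ k, Ideal.Quotient.mk J q = ψ (evK k f q) := by
    intro q
    induction q using MvPolynomial.induction_on' with
    | monomial u a =>
      rw [evK_monomial]
      simp only [ψ, Polynomial.lsum_apply]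
      rw [Polynomial.sum_monomial_index _ _ (by simp)]
      have hs : ∃ c : σ →₀ ℕ, wt f c = wt f u := ⟨u, rfl⟩
      rw [LinearMap.toSpanSingleton_apply]
      have h1 : rep (wt f u) = Ideal.Quotient.mk J (monomial hs.choose 1) := by
        simp only [rep]
        rw [dif_pos hs]
      have h2 : Ideal.Quotient.mk J (monomial u (1 : k))
          = Ideal.Quotient.mk J (monomial hs.choose 1) :=
        Ideal.Quotient.eq.2 (h _ _ hs.choose_spec.symm)
      rw [h1, ← h2]
      have h3 : monomial u a = a • (monomial u (1 : k)) := by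
        rw [smul_monomial, smul_eq_mul, mul_one]
      rw [h3]
      exact map_smul (Ideal.Quotient.mkₐ k J) a (monomial u (1 : k))
    | add p q hp hq => rw [map_add, hp, hq, map_add, map_add]
  intro p hp
  have h1 := key p
  rw [(RingHom.mem_ker).1 hp, map_zero] at h1
  exact Ideal.Quotient.eq_zero_iff_mem.1 h1

theorem binomial_mem_kerK (f : σ → ℕ) (u v : σ →₀ ℕ) (h : wt f u = wt f v) :
    monomial u (1 : k) - monomial v 1 ∈ RingHom.ker (evK k f) := by
  rw [RingHom.mem_ker, map_sub, evK_monomial, evK_monomial, h, sub_self]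

/-- lower bound for the number of generators -/
theorem card_le_spanRankK (f : σ → ℕ) {ι : Type} [Fintype ι] (g : ι → (σ →₀ ℕ) → k)
    (h : ι → σ → ℕ → k)
    (hg : ∀ i l c, g i (c + Finsupp.single l 1) = h i l (wt f c))
    (P : ι → MvPolynomial σ k) (hP : ∀ i, P i ∈ RingHom.ker (evK k f))
    (hind : LinearIndependent k (fun i => (fun j => LfK k (g j) (P i) : ι → k))) :
    (Fintype.card ι : Cardinal) ≤ Submodule.spanRank (RingHom.ker (evK k f)) := by
  classical
  obtain ⟨s, hs1, hs2⟩ := Submodule.exists_span_set_card_eq_spanRank (RingHom.ker (evK k f))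
  let Φ : MvPolynomial σ k →ₗ[k] (ι → k) := LinearMap.pi fun j => LfK k (g j)
  have hX : ∀ l : σ, ∀ p ∈ RingHom.ker (evK k f), Φ (X l * p) = 0 := by
    intro l p hp
    funext j
    simp only [Φ, LinearMap.pi_apply, Pi.zero_apply]
    have key : ∀ q : MvPolynomial σ k, LfK k (g j) (X l * q) = LfK k (fun c => h j l (wt f c)) q := by
      intro q
      induction q using MvPolynomial.induction_on' with
      | monomial u a =>
        rw [X, monomial_mul, one_mul, LfK_monomial, LfK_monomial, add_comm, hg]
      | add p q hp hq => rw [mul_add, map_add, hp, hq, map_add]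
    rw [key]
    exact LfK_wt_eq_zero k f _ p hp
  have hcc : ∀ r p : MvPolynomial σ k, p ∈ RingHom.ker (evK k f) →
      Φ (r * p) = constantCoeff r • Φ p := by
    intro r
    induction r using MvPolynomial.induction_on with
    | C a =>
      intro p _
      rw [← smul_eq_C_mul, map_smul, constantCoeff_C]
    | add p q hp hq =>
      intro x hx
      rw [add_mul, map_add, hp x hx, hq x hx, map_add, add_smul]
    | mul_X p i hp =>
      intro x hx
      rw [mul_assoc, hp (X i * x) (Ideal.mul_mem_left _ _ hx), hX i x hx, smul_zero, map_mul,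
        constantCoeff_X, mul_zero, zero_smul]
  have hsub : ∀ x ∈ RingHom.ker (evK k f), Φ x ∈ Submodule.span k (Φ '' s) := by
    intro x hx
    have hx' : x ∈ Submodule.span (MvPolynomial σ k) s := by rw [hs2]; exact hx
    induction hx' using Submodule.span_induction with
    | mem x hxs => exact Submodule.subset_span ⟨x, hxs, rfl⟩
    | zero => rw [map_zero]; exact Submodule.zero_mem _
    | add x y hxs hys hxx hyy =>
      rw [map_add]
      exact Submodule.add_mem _ (hxx (by rw [← hs2]; exact hxs)) (hyy (by rw [← hs2]; exact hys))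
    | smul r x hxs hxx =>
      have hx2 : x ∈ RingHom.ker (evK k f) := by rw [← hs2]; exact hxs
      rw [smul_eq_mul, hcc r x hx2]
      exact Submodule.smul_mem _ _ (hxx hx2)
  have hv : ∀ i, (fun j => LfK k (g j) (P i) : ι → k) ∈ Submodule.span k (Φ '' s) := by
    intro i
    exact hsub (P i) (hP i)
  let v : ι → Submodule.span k (Φ '' s) := fun i => ⟨_, hv i⟩
  have hv2 : LinearIndependent k v := by
    apply LinearIndependent.of_comp (Submodule.span k (Φ '' s)).subtype
    exact hind
  have h1 : (Fintype.card ι : Cardinal) ≤ Module.rank k (Submodule.span k (Φ '' s)) := by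
    have := hv2.cardinal_lift_le_rank
    simpa [Cardinal.mk_fintype] using this
  have h2 : Module.rank k (Submodule.span k (Φ '' s)) ≤ Cardinal.mk (Φ '' s) :=
    rank_span_le _
  have h3 : Cardinal.mk (Φ '' s) ≤ Cardinal.mk s := Cardinal.mk_image_le
  rw [← hs1]
  exact h1.trans (h2.trans h3)

/-- upper bound for the number of generators -/
theorem spanRank_kerK_le (f : σ → ℕ) (s : Finset (MvPolynomial σ k))
    (h1 : ∀ x ∈ s, x ∈ RingHom.ker (evK k f))
    (h2 : RingHom.ker (evK k f) ≤ Ideal.span (s : Set (MvPolynomial σ k))) :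
    Submodule.spanRank (RingHom.ker (evK k f)) ≤ (s.card : Cardinal) := by
  have h3 : RingHom.ker (evK k f) = Submodule.span (MvPolynomial σ k)
      (s : Set (MvPolynomial σ k)) := le_antisymm h2 (Ideal.span_le.2 h1)
  rw [h3]
  refine (Submodule.spanRank_span_le_card _).trans ?_
  rw [Finset.coe_sort_coe, Cardinal.mk_coe_finset]

end Ker

end Pool.Agent.helper51.HS
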